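import Pool.Agent.Helper64.Per.Exist

/-!
# MP_290158_ag: the degree-bounded statement for `j = 0` over the affine line

Definitions are in `Pool.Agent.Helper64.Per.Defs`.
-/

set_option autoImplicit false

open Pool.Agent.Helper64.Per

namespace Pool.Agent.Helper64.Old.ArtinFamilies

/-- For `j = 0` and open subsets of the affine line the degree-`δ` statement holds exactly for
the covers with trivial monodromy; for all other covers infinitely many points carry a linear
relation (with respect to every local basis). -/
theorem result (f : Cover) :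
    (∀ δ : ℕ, 1 ≤ δ → (f.Holds δ ↔ f.Trivial)) ∧
    (∀ s ∈ f.S, Nonempty (f.Branch s)) ∧
    (¬ f.Trivial →
      {s : Qbar | (s : ℂ) ∈ f.S ∧ ∀ b : f.Branch (s : ℂ), ∀ κ : IntermediateField ℚ Qbar,
        ∀ δ : ℕ, 1 ≤ δ → HasRelation b.U (f.P b) (s : ℂ) κ δ}.Infinite) :=
  ⟨fun _ hδ => f.holds_iff hδ, fun _ hs => f.exists_branch hs,
    fun hT => f.infinite_of_not_trivial hT⟩

end Pool.Agent.Helper64.Old.ArtinFamilies
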